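import Pool.Agent.N236.UB.Stm

/-! # Project UB, part PRIME -/

set_option autoImplicit false

namespace Pool.Agent.N514.UB

open Pool.Agent.N236.UB

theorem exists_gen (l : ℕ) (hl : l.Prime) : ∃ g : ℕ, ((g : ZMod l) ≠ 0) ∧
    ∀ f : ℕ, (g : ZMod l) ^ f = 1 → l - 1 ∣ f := by
  have : Fact l.Prime := ⟨hl⟩
  obtain ⟨g, hg⟩ := IsCyclic.exists_generator (α := (ZMod l)ˣ)
  have ho : orderOf g = l - 1 := by
    rw [orderOf_eq_card_of_forall_mem_zpowers hg, Nat.card_eq_fintype_card, ZMod.card_units]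
  refine ⟨(g : ZMod l).val, ?_, fun f hf => ?_⟩
  · rw [ZMod.natCast_zmod_val]
    exact g.ne_zero
  · rw [ZMod.natCast_zmod_val] at hf
    rw [← ho, orderOf_dvd_iff_pow_eq_one]
    apply Units.ext
    rw [Units.val_pow_eq_pow_val, Units.val_one]
    exact hf

theorem t_prime : S_PRIME := by
  classical
  intro d hd
  have hd0 : d ≠ 0 := by omega
  have hg : ∀ l : ℕ, ∃ g : ℕ, l.Prime → ((g : ZMod l) ≠ 0) ∧
      ∀ f : ℕ, (g : ZMod l) ^ f = 1 → l - 1 ∣ f := by
    intro l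
    by_cases hl : l.Prime
    · obtain ⟨g, h1, h2⟩ := exists_gen l hl
      exact ⟨g, fun _ => ⟨h1, h2⟩⟩
    · exact ⟨0, fun h => absurd h hl⟩
  choose g hg using hg
  let s := d.primeFactors
  have hs : ∀ l ∈ s, l.Prime := fun l hl => Nat.prime_of_mem_primeFactors hl
  obtain ⟨k, hk⟩ := Nat.chineseRemainderOfFinset g (fun l => l) s
    (fun l hl => (hs l hl).ne_zero) (fun a ha b hb hab =>
      (Nat.coprime_primes (hs a ha) (hs b hb)).mpr hab)
  set r : ℕ := ∏ l ∈ s, l with hr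
  have hr0 : r ≠ 0 := Finset.prod_ne_zero_iff.mpr fun l hl => (hs l hl).ne_zero
  have : NeZero r := ⟨hr0⟩
  have hkl : ∀ l ∈ s, (k : ZMod l) = (g l : ZMod l) := fun l hl =>
    (ZMod.natCast_eq_natCast_iff _ _ _).mpr (hk l hl)
  have hcop : k.Coprime r := by
    rw [hr, Nat.coprime_prod_right_iff]
    intro l hl
    rw [Nat.coprime_comm, (hs l hl).coprime_iff_not_dvd]
    intro hdv
    have h1 : (k : ZMod l) = 0 := (ZMod.natCast_eq_zero_iff _ _).mpr hdv
    rw [hkl l hl] at h1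
    exact (hg l (hs l hl)).1 h1
  have hunit : IsUnit (k : ZMod r) := (ZMod.isUnit_iff_coprime k r).mpr hcop
  obtain ⟨p, hpd, hp, hpk⟩ := Nat.forall_exists_prime_gt_and_eq_mod hunit d
  refine ⟨p, hp, fun hdv => ?_, fun l hl hld f hf1 hf2 hdvd => ?_⟩
  · have := Nat.le_of_dvd (by omega) hdv
    omega
  · have hls : l ∈ s := Nat.mem_primeFactors.mpr ⟨hl, hld, hd0⟩
    have hlr : l ∣ r := Finset.dvd_prod_of_mem _ hls
    have h1 : (p : ZMod l) = (k : ZMod l) := by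
      rw [ZMod.natCast_eq_natCast_iff] at hpk ⊢
      exact hpk.of_dvd hlr
    have h2 : (p : ZMod l) ^ f = 1 := by
      have h3 : 1 ≤ p ^ f := Nat.one_le_pow _ _ hp.pos
      have h4 : ((p ^ f - 1 : ℕ) : ZMod l) = 0 := (ZMod.natCast_eq_zero_iff _ _).mpr hdvd
      rw [Nat.cast_sub h3, Nat.cast_pow, Nat.cast_one, sub_eq_zero] at h4
      exact h4
    rw [h1, hkl l hls] at h2
    have h3 := (hg l hl).2 f h2
    have := Nat.le_of_dvd (by omega) h3
    omega

end Pool.Agent.N514.UB
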